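import Mathlib

set_option autoImplicit false

/-!
# Averages of joint moments over many translates
-/

namespace Pool.Agent.V11270.KC

open Finset MeasureTheory

/-- bounded measurable functions which vanish outside a bounded interval -/
structure Nice (g : ℝ → ℝ) : Prop where
  meas : Measurable g
  bdd : ∃ B : ℝ, ∀ x, |g x| ≤ B
  supp : ∃ a b : ℝ, ∀ x, x ∉ Set.Icc a b → g x = 0

theorem Nice.integrable {g : ℝ → ℝ} (h : Nice g) : Integrable g := by
  obtain ⟨B, hB⟩ := h.bdd
  obtain ⟨a, b, hs⟩ := h.supp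
  have h1 : IntegrableOn g (Set.Icc a b) := by
    refine Measure.integrableOn_of_bounded (M := B) ?_ h.meas.aestronglyMeasurable ?_
    · rw [Real.volume_Icc]
      exact ENNReal.ofReal_ne_top
    · exact Filter.Eventually.of_forall fun x => by
        rw [Real.norm_eq_abs]
        exact hB x
  refine (integrableOn_iff_integrable_of_support_subset ?_).1 h1
  intro x hx
  by_contra hc
  exact hx (hs x hc)

theorem Nice.comp {g : ℝ → ℝ} (h : Nice g) (c : ℝ) : Nice fun x => g (x + c) := by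
  obtain ⟨B, hB⟩ := h.bdd
  obtain ⟨a, b, hs⟩ := h.supp
  refine ⟨h.meas.comp (measurable_add_const c), ⟨B, fun x => hB _⟩, a - c, b - c, fun x hx => ?_⟩
  apply hs
  intro hc
  apply hx
  constructor
  · linarith [hc.1]
  · linarith [hc.2]

theorem Nice.zero : Nice fun _ => (0 : ℝ) :=
  ⟨measurable_const, ⟨0, fun x => by simp⟩, 0, 0, fun _ _ => rfl⟩

theorem Nice.add {g h : ℝ → ℝ} (hg : Nice g) (hh : Nice h) : Nice fun x => g x + h x := by
  obtain ⟨B, hB⟩ := hg.bdd
  obtain ⟨a, b, hs⟩ := hg.supp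
  obtain ⟨B', hB'⟩ := hh.bdd
  obtain ⟨a', b', hs'⟩ := hh.supp
  refine ⟨hg.meas.add hh.meas, ⟨B + B', fun x => (abs_add_le _ _).trans
    (add_le_add (hB x) (hB' x))⟩, min a a', max b b', fun x hx => ?_⟩
  have h1 : x ∉ Set.Icc a b := fun hc => hx ⟨(min_le_left _ _).trans hc.1,
    hc.2.trans (le_max_left _ _)⟩
  have h2 : x ∉ Set.Icc a' b' := fun hc => hx ⟨(min_le_right _ _).trans hc.1,
    hc.2.trans (le_max_right _ _)⟩
  rw [hs x h1, hs' x h2, add_zero]

theorem Nice.mul {g h : ℝ → ℝ} (hg : Nice g) (hh : Nice h) : Nice fun x => g x * h x := by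
  obtain ⟨B, hB⟩ := hg.bdd
  obtain ⟨a, b, hs⟩ := hg.supp
  obtain ⟨B', hB'⟩ := hh.bdd
  refine ⟨hg.meas.mul hh.meas, ⟨B * B', fun x => ?_⟩, a, b, fun x hx => ?_⟩
  · rw [abs_mul]
    exact mul_le_mul (hB x) (hB' x) (abs_nonneg _) ((abs_nonneg _).trans (hB x))
  · rw [hs x hx, zero_mul]

theorem Nice.sum {ι : Type} (S : Finset ι) (g : ι → ℝ → ℝ) (h : ∀ i ∈ S, Nice (g i)) :
    Nice fun x => ∑ i ∈ S, g i x := by
  classical
  induction S using Finset.induction_on with
  | empty => simpa using Nice.zero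
  | insert i S hi ih =>
    simp_rw [sum_insert hi]
    exact (h i (mem_insert_self _ _)).add (ih fun j hj => h j (mem_insert_of_mem hj))

theorem Nice.prod {ι : Type} (S : Finset ι) (hS : S.Nonempty) (g : ι → ℝ → ℝ)
    (h : ∀ i ∈ S, Nice (g i)) : Nice fun x => ∏ i ∈ S, g i x := by
  classical
  induction hS using Finset.Nonempty.cons_induction with
  | singleton a => simpa using h a (mem_singleton_self a)
  | cons a s ha hs ih =>
    simp_rw [prod_cons]
    exact (h a (mem_cons_self _ _)).mul (ih fun j hj => h j (mem_cons_of_mem hj))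

theorem Nice.pow {g : ℝ → ℝ} (h : Nice g) {k : ℕ} (hk : 1 ≤ k) : Nice fun x => g x ^ k := by
  have := Nice.prod (univ : Finset (Fin k)) ⟨⟨0, by omega⟩, mem_univ _⟩ (fun _ => g)
    (fun _ _ => h)
  simpa using this

/-- a product is at most the sum of the powers -/
theorem prod_le_sum_pow {k : ℕ} (hk : 1 ≤ k) (u : Fin k → ℝ) (hu : ∀ l, 0 ≤ u l) :
    ∏ l, u l ≤ ∑ l, u l ^ k := by
  classical
  obtain ⟨l₀, -, hl₀⟩ := exists_max_image (univ : Finset (Fin k)) u ⟨⟨0, by omega⟩, mem_univ _⟩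
  calc ∏ l, u l ≤ ∏ _l : Fin k, u l₀ := prod_le_prod (fun l _ => hu l) fun l _ => hl₀ l (mem_univ _)
    _ = u l₀ ^ k := by rw [prod_const, card_univ, Fintype.card_fin]
    _ ≤ ∑ l, u l ^ k := single_le_sum (f := fun l => u l ^ k) (fun l _ => pow_nonneg (hu l) _)
        (mem_univ l₀)

/-- the convexity inequality -/
theorem jensen {k : ℕ} (hk : 1 ≤ k) {g : ℝ → ℝ} (hg : Nice g) (h0 : ∀ x, 0 ≤ g x) {a L : ℝ}
    (hL : 0 < L) (hs : ∀ x, x ∉ Set.Icc a (a + L) → g x = 0) :
    (∫ x, g x) ^ k / L ^ (k - 1) ≤ ∫ x, g x ^ k := by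
  obtain ⟨I, hI⟩ : ∃ I : ℝ, I = ∫ x, g x := ⟨_, rfl⟩
  rw [← hI]
  have hI0 : 0 ≤ I := by
    rw [hI]
    exact integral_nonneg h0
  rcases hI0.eq_or_lt with h | hIp
  · rw [← h, zero_pow (by omega), zero_div]
    exact integral_nonneg fun x => pow_nonneg (h0 x) _
  obtain ⟨lam, hlam⟩ : ∃ lam : ℝ, lam = I / L := ⟨_, rfl⟩
  have hlam0 : 0 < lam := by
    rw [hlam]
    positivity
  have hJ : Nice ((Set.Icc a (a + L)).indicator fun _ => (1 : ℝ)) := by
    refine ⟨measurable_const.indicator measurableSet_Icc, ⟨1, fun x => ?_⟩, a, a + L, fun x hx =>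
      Set.indicator_of_notMem hx _⟩
    by_cases hx : x ∈ Set.Icc a (a + L)
    · rw [Set.indicator_of_mem hx, abs_one]
    · rw [Set.indicator_of_notMem hx, abs_zero]
      exact zero_le_one
  have hpt : ∀ x, k * lam ^ (k - 1) * g x - ((k : ℝ) - 1) * lam ^ k *
      (Set.Icc a (a + L)).indicator (fun _ => (1 : ℝ)) x ≤ g x ^ k := by
    intro x
    by_cases hx : x ∈ Set.Icc a (a + L)
    · rw [Set.indicator_of_mem hx, mul_one]
      have h1 : 1 + (k : ℝ) * (g x / lam - 1) ≤ (1 + (g x / lam - 1)) ^ k := by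
        refine one_add_mul_le_pow ?_ k
        have : 0 ≤ g x / lam := div_nonneg (h0 x) hlam0.le
        linarith
      have h2 : (1 + (g x / lam - 1)) ^ k = g x ^ k / lam ^ k := by
        rw [← div_pow]
        congr 1
        ring
      rw [h2, le_div_iff₀ (by positivity)] at h1
      refine le_trans (le_of_eq ?_) h1
      obtain ⟨j, rfl⟩ : ∃ j, k = j + 1 := ⟨k - 1, by omega⟩
      simp only [Nat.add_sub_cancel]
      rw [pow_succ]
      push_cast
      field_simp
      ring
    · rw [Set.indicator_of_notMem hx, mul_zero, sub_zero, hs x hx, mul_zero, zero_pow (by omega)]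
  have hint := integral_mono (((hg.integrable.const_mul (k * lam ^ (k - 1)))).sub
    ((hJ.integrable.const_mul (((k : ℝ) - 1) * lam ^ k)))) (hg.pow hk).integrable hpt
  refine le_trans (le_of_eq ?_) hint
  rw [integral_sub' (hg.integrable.const_mul _) (hJ.integrable.const_mul _), integral_const_mul,
    integral_const_mul, ← hI, integral_indicator_const _ measurableSet_Icc]
  have hv : volume.real (Set.Icc a (a + L)) = L := by
    rw [measureReal_def, Real.volume_Icc, ENNReal.toReal_ofReal (by linarith)]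
    ring
  rw [hv, smul_eq_mul, mul_one]
  obtain ⟨j, rfl⟩ : ∃ j, k = j + 1 := ⟨k - 1, by omega⟩
  simp only [Nat.add_sub_cancel]
  rw [hlam]
  push_cast
  rw [pow_succ, div_pow, div_pow, pow_succ]
  field_simp
  ring

/-- the number of injective functions -/
theorem card_inj (k R : ℕ) : (R : ℝ) ^ k - k ^ 2 * (R : ℝ) ^ (k - 1) ≤
    (Fintype.card (Fin k ↪ Fin R) : ℝ) := by
  rw [Fintype.card_embedding_eq, Fintype.card_fin, Fintype.card_fin]
  rcases Nat.eq_zero_or_pos k with rfl | hk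
  · simp
  rcases Nat.lt_or_ge R k with h | h
  · have h1 : (R : ℝ) ^ k ≤ k ^ 2 * (R : ℝ) ^ (k - 1) := by
      obtain ⟨j, rfl⟩ : ∃ j, k = j + 1 := ⟨k - 1, by omega⟩
      simp only [Nat.add_sub_cancel]
      rw [pow_succ, mul_comm]
      have h2 : (R : ℝ) ≤ ((j + 1 : ℕ) : ℝ) ^ 2 := by
        have h3 : (R : ℝ) ≤ ((j + 1 : ℕ) : ℝ) := by exact_mod_cast h.le
        have h4 : (1 : ℝ) ≤ ((j + 1 : ℕ) : ℝ) := by exact_mod_cast hk
        nlinarith
      exact mul_le_mul_of_nonneg_right h2 (by positivity)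
    have h2 : (0 : ℝ) ≤ (R.descFactorial k : ℝ) := Nat.cast_nonneg _
    linarith
  · have h1 := Nat.pow_sub_le_descFactorial R k
    have h2 : ((R + 1 - k : ℕ) : ℝ) ^ k ≤ (R.descFactorial k : ℝ) := by exact_mod_cast h1
    refine le_trans ?_ h2
    have hR : (0 : ℝ) < R := by
      have : 0 < R := by omega
      exact_mod_cast this
    have h3 : (R : ℝ) - k ≤ ((R + 1 - k : ℕ) : ℝ) := by
      rw [Nat.cast_sub (by omega)]
      push_cast
      linarith
    have hkR : (k : ℝ) ≤ R := by exact_mod_cast h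
    have h4 : ((R : ℝ) - k) ^ k ≤ ((R + 1 - k : ℕ) : ℝ) ^ k := pow_le_pow_left₀ (by linarith) h3 k
    refine le_trans ?_ h4
    have h5 : 1 + (k : ℝ) * (-(k / R)) ≤ (1 + -((k : ℝ) / R)) ^ k := by
      refine one_add_mul_le_pow ?_ k
      have : (k : ℝ) / R ≤ 1 := (div_le_one hR).2 hkR
      linarith
    have h6 : (1 + -((k : ℝ) / R)) ^ k = ((R : ℝ) - k) ^ k / (R : ℝ) ^ k := by
      rw [← div_pow]
      congr 1
      field_simp
      ring
    rw [h6, le_div_iff₀ (by positivity)] at h5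
    refine le_trans (le_of_eq ?_) h5
    obtain ⟨j, rfl⟩ : ∃ j, k = j + 1 := ⟨k - 1, by omega⟩
    simp only [Nat.add_sub_cancel]
    rw [pow_succ]
    field_simp
    ring

/-- **the average over the tuples of distinct translates** -/
theorem average {k : ℕ} (hk : 1 ≤ k) {f : ℝ → ℝ} (hf : Nice f) (h0 : ∀ x, 0 ≤ f x) {a L : ℝ}
    (hL : 0 < L) (hs : ∀ x, x ∉ Set.Icc a (a + L) → f x = 0) {R : ℕ} (α : Fin R → ℝ) {c θ : ℝ}
    (hθ : 0 ≤ θ) (hα : ∀ i, c ≤ α i ∧ α i ≤ c + θ) {B : ℝ} (hB : ∫ x, f x ^ k ≤ B) :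
    (R : ℝ) ^ k * ((∫ x, f x) ^ k / (L + θ) ^ (k - 1)) - k ^ 3 * (R : ℝ) ^ (k - 1) * B ≤
      ∑ e : Fin k ↪ Fin R, ∫ x, ∏ l, f (x + α (e l)) := by
  classical
  obtain ⟨F, hF⟩ : ∃ F : (Fin k → Fin R) → ℝ, F = fun p => ∫ x, ∏ l, f (x + α (p l)) := ⟨_, rfl⟩
  have hne : (univ : Finset (Fin k)).Nonempty := ⟨⟨0, by omega⟩, mem_univ _⟩
  have hprod : ∀ p : Fin k → Fin R, Nice fun x => ∏ l, f (x + α (p l)) := fun p =>
    Nice.prod univ hne (fun l x => f (x + α (p l))) fun l _ => hf.comp _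
  have hB0 : 0 ≤ B := (integral_nonneg fun x => pow_nonneg (h0 x) _).trans hB
  -- every term is bounded
  have hFB : ∀ p, F p ≤ k * B := by
    intro p
    rw [hF]
    calc ∫ x, ∏ l, f (x + α (p l)) ≤ ∫ x, ∑ l, f (x + α (p l)) ^ k := by
          refine integral_mono (hprod p).integrable ?_ fun x =>
            prod_le_sum_pow hk _ fun l => h0 _
          exact (Nice.sum univ (fun l x => f (x + α (p l)) ^ k) fun l _ =>
            (hf.comp _).pow hk).integrable
      _ = ∑ l, ∫ x, f (x + α (p l)) ^ k :=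
          integral_finsetSum _ fun l _ => ((hf.comp _).pow hk).integrable
      _ ≤ ∑ _l : Fin k, B := by
          refine sum_le_sum fun l _ => ?_
          rw [integral_add_right_eq_self (fun x => f x ^ k)]
          exact hB
      _ = k * B := by rw [sum_const, card_univ, Fintype.card_fin, nsmul_eq_mul]
  -- the sum of all translates
  obtain ⟨g, hg⟩ : ∃ g : ℝ → ℝ, g = fun x => ∑ i, f (x + α i) := ⟨_, rfl⟩
  have hgN : Nice g := by
    rw [hg]
    exact Nice.sum univ (fun i x => f (x + α i)) fun i _ => hf.comp _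
  have hg0 : ∀ x, 0 ≤ g x := by
    intro x
    rw [hg]
    exact sum_nonneg fun i _ => h0 _
  have hgs : ∀ x, x ∉ Set.Icc (a - c - θ) (a - c - θ + (L + θ)) → g x = 0 := by
    intro x hx
    rw [hg]
    refine sum_eq_zero fun i _ => hs _ fun hc => hx ?_
    have h1 := hα i
    constructor
    · linarith [hc.1]
    · linarith [hc.2]
  have hgi : ∫ x, g x = R * ∫ x, f x := by
    rw [hg, integral_finsetSum _ fun i _ => (hf.comp _).integrable]
    simp_rw [integral_add_right_eq_self f]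
    rw [sum_const, card_univ, Fintype.card_fin, nsmul_eq_mul]
  have hj := jensen hk hgN hg0 (show 0 < L + θ by linarith) hgs
  have hpow : ∫ x, g x ^ k = ∑ p : Fin k → Fin R, F p := by
    rw [hg, hF]
    simp_rw [Fintype.sum_pow]
    exact integral_finsetSum _ fun p _ => (hprod p).integrable
  rw [hgi, hpow, mul_pow, mul_div_assoc] at hj
  -- injective and other functions
  have hsplit := sum_filter_add_sum_filter_not (univ : Finset (Fin k → Fin R))
    (fun p => Function.Injective p) F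
  have hinj : ∑ p ∈ (univ : Finset (Fin k → Fin R)).filter (fun p => Function.Injective p), F p =
      ∑ e : Fin k ↪ Fin R, ∫ x, ∏ l, f (x + α (e l)) := by
    symm
    refine sum_bij (fun e _ => (e : Fin k → Fin R)) (fun e _ => ?_) (fun e _ e' _ h => ?_)
      (fun p hp => ?_) (fun e _ => ?_)
    · rw [mem_filter]
      exact ⟨mem_univ _, e.injective⟩
    · exact DFunLike.coe_injective h
    · rw [mem_filter] at hp
      exact ⟨⟨p, hp.2⟩, mem_univ _, rfl⟩
    · rw [hF]
  have hcardinj : ((univ : Finset (Fin k → Fin R)).filter (fun p => Function.Injective p)).card =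
      Fintype.card (Fin k ↪ Fin R) := by
    rw [← card_univ]
    symm
    refine card_bij (fun e _ => (e : Fin k → Fin R)) (fun e _ => ?_) (fun e _ e' _ h => ?_)
      (fun p hp => ?_)
    · rw [mem_filter]
      exact ⟨mem_univ _, e.injective⟩
    · exact DFunLike.coe_injective h
    · rw [mem_filter] at hp
      exact ⟨⟨p, hp.2⟩, mem_univ _, rfl⟩
  have hcard : (((univ : Finset (Fin k → Fin R)).filter
      (fun p => ¬ Function.Injective p)).card : ℝ) ≤ k ^ 2 * (R : ℝ) ^ (k - 1) := by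
    have h1 := card_filter_add_card_filter_not (s := (univ : Finset (Fin k → Fin R)))
      (fun p => Function.Injective p)
    have h2 : ((univ : Finset (Fin k → Fin R)).card : ℝ) = (R : ℝ) ^ k := by
      rw [card_univ, Fintype.card_fun, Fintype.card_fin, Fintype.card_fin]
      push_cast
      rfl
    have h3 : (((univ : Finset (Fin k → Fin R)).filter (fun p => Function.Injective p)).card : ℝ) +
        (((univ : Finset (Fin k → Fin R)).filter (fun p => ¬ Function.Injective p)).card : ℝ) =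
        (R : ℝ) ^ k := by
      rw [← h2]
      exact_mod_cast h1
    rw [hcardinj] at h3
    have h4 := card_inj k R
    linarith
  have hbad : ∑ p ∈ (univ : Finset (Fin k → Fin R)).filter (fun p => ¬ Function.Injective p), F p ≤
      k ^ 3 * (R : ℝ) ^ (k - 1) * B := by
    refine (sum_le_sum fun p _ => hFB p).trans ?_
    rw [sum_const, nsmul_eq_mul]
    have hkB : 0 ≤ (k : ℝ) * B := by positivity
    refine (mul_le_mul_of_nonneg_right hcard hkB).trans (le_of_eq ?_)
    ring
  rw [← hsplit, hinj] at hj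
  linarith

end Pool.Agent.V11270.KC
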