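import Mathlib
import Pool.Agent.Y750.OM.Cnt
import Pool.Agent.H370R2.Dyadic
import Pool.Agent.V11270.KC.Avg

set_option autoImplicit false

/-!
# Counts of zeros in windows of the length of the mean spacing
-/

namespace Pool.Agent.V11270.KC

open Finset MeasureTheory Filter Topology
open H370 (Zf mult mem_Zf good_zeta zset NN)

/-- closed windows -/
noncomputable def W (S : Finset ℂ) (δ x : ℝ) : ℝ :=
  ∑ s ∈ S.filter (fun s => |s.im - x| ≤ δ), (mult riemannZeta s : ℝ)

/-- open windows -/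
noncomputable def V (S : Finset ℂ) (δ x : ℝ) : ℝ :=
  ∑ s ∈ S.filter (fun s => |s.im - x| < δ), (mult riemannZeta s : ℝ)

theorem W_eq (S : Finset ℂ) (δ x : ℝ) : W S δ x = ∑ s ∈ S,
    (Set.Icc (s.im - δ) (s.im + δ)).indicator (fun _ => (mult riemannZeta s : ℝ)) x := by
  classical
  unfold W
  rw [sum_filter]
  refine sum_congr rfl fun s _ => ?_
  rw [Set.indicator_apply]
  refine if_congr ?_ rfl rfl
  rw [abs_le, Set.mem_Icc]
  constructor
  · rintro ⟨h1, h2⟩
    constructor <;> linarith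
  · rintro ⟨h1, h2⟩
    constructor <;> linarith

theorem V_eq (S : Finset ℂ) (δ x : ℝ) : V S δ x = ∑ s ∈ S,
    (Set.Ioo (s.im - δ) (s.im + δ)).indicator (fun _ => (mult riemannZeta s : ℝ)) x := by
  classical
  unfold V
  rw [sum_filter]
  refine sum_congr rfl fun s _ => ?_
  rw [Set.indicator_apply]
  refine if_congr ?_ rfl rfl
  rw [abs_lt, Set.mem_Ioo]
  constructor
  · rintro ⟨h1, h2⟩
    constructor <;> linarith
  · rintro ⟨h1, h2⟩
    constructor <;> linarith

theorem nice_ind {A : Set ℝ} (hA : MeasurableSet A) {a b : ℝ} (h : A ⊆ Set.Icc a b) (c : ℝ) :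
    Nice (A.indicator fun _ => c) := by
  refine ⟨measurable_const.indicator hA, ⟨|c|, fun x => ?_⟩, a, b, fun x hx =>
    Set.indicator_of_notMem (fun hc => hx (h hc)) _⟩
  by_cases hx : x ∈ A
  · rw [Set.indicator_of_mem hx]
  · rw [Set.indicator_of_notMem hx, abs_zero]
    exact abs_nonneg _

theorem nice_W (S : Finset ℂ) (δ : ℝ) : Nice (W S δ) := by
  have h : W S δ = fun x => ∑ s ∈ S,
    (Set.Icc (s.im - δ) (s.im + δ)).indicator (fun _ => (mult riemannZeta s : ℝ)) x :=
    funext fun x => W_eq S δ x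
  rw [h]
  exact Nice.sum S _ fun s _ => nice_ind measurableSet_Icc (Set.Subset.refl _) _

theorem nice_V (S : Finset ℂ) (δ : ℝ) : Nice (V S δ) := by
  have h : V S δ = fun x => ∑ s ∈ S,
    (Set.Ioo (s.im - δ) (s.im + δ)).indicator (fun _ => (mult riemannZeta s : ℝ)) x :=
    funext fun x => V_eq S δ x
  rw [h]
  exact Nice.sum S _ fun s _ => nice_ind measurableSet_Ioo Set.Ioo_subset_Icc_self _

theorem W_nonneg (S : Finset ℂ) (δ x : ℝ) : 0 ≤ W S δ x := sum_nonneg fun s _ => Nat.cast_nonneg _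

theorem V_nonneg (S : Finset ℂ) (δ x : ℝ) : 0 ≤ V S δ x := sum_nonneg fun s _ => Nat.cast_nonneg _

theorem W_mono {S S' : Finset ℂ} (h : S ⊆ S') {δ δ' : ℝ} (hδ : δ ≤ δ') (x : ℝ) :
    W S δ x ≤ W S' δ' x := by
  classical
  unfold W
  refine sum_le_sum_of_subset_of_nonneg ?_ fun s _ _ => Nat.cast_nonneg _
  intro s hs
  rw [mem_filter] at hs ⊢
  exact ⟨h hs.1, hs.2.trans hδ⟩

theorem W_union {S A B : Finset ℂ} (h : ∀ s ∈ S, s ∈ A ∨ s ∈ B) (δ x : ℝ) :
    W S δ x ≤ W A δ x + W B δ x := by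
  classical
  unfold W
  calc ∑ s ∈ S.filter (fun s => |s.im - x| ≤ δ), (mult riemannZeta s : ℝ) ≤
      ∑ s ∈ A.filter (fun s => |s.im - x| ≤ δ) ∪ B.filter (fun s => |s.im - x| ≤ δ),
        (mult riemannZeta s : ℝ) := by
        refine sum_le_sum_of_subset_of_nonneg ?_ fun s _ _ => Nat.cast_nonneg _
        intro s hs
        rw [mem_filter] at hs
        rw [mem_union, mem_filter, mem_filter]
        rcases h s hs.1 with h1 | h1
        · exact Or.inl ⟨h1, hs.2⟩
        · exact Or.inr ⟨h1, hs.2⟩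
    _ ≤ _ := by
        rw [← sum_union_inter]
        exact le_add_of_nonneg_right (sum_nonneg fun s _ => Nat.cast_nonneg _)

/-- the integral of the counts -/
theorem int_V (S : Finset ℂ) {δ : ℝ} (hδ : 0 ≤ δ) :
    ∫ x, V S δ x = 2 * δ * ∑ s ∈ S, (mult riemannZeta s : ℝ) := by
  simp_rw [V_eq]
  rw [integral_finsetSum _ fun s _ =>
    (nice_ind measurableSet_Ioo Set.Ioo_subset_Icc_self _).integrable, mul_sum]
  refine sum_congr rfl fun s _ => ?_
  rw [integral_indicator_const _ measurableSet_Ioo, measureReal_def, Real.volume_Ioo,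
    ENNReal.toReal_ofReal (by linarith), smul_eq_mul]
  ring

/-- the zeros with ordinate in `(0, T]` -/
noncomputable def Z0 (T : ℝ) : Finset ℂ := (H370.zeta_zeros_finite T).toFinset

theorem mem_Z0 {T : ℝ} {s : ℂ} : s ∈ Z0 T ↔
    0 < s.re ∧ s.re < 1 ∧ 0 < s.im ∧ s.im ≤ T ∧ riemannZeta s = 0 := by
  unfold Z0
  rw [Set.Finite.mem_toFinset]
  rfl

theorem Z0_mono {T T' : ℝ} (h : T ≤ T') : Z0 T ⊆ Z0 T' := by
  intro s hs
  rw [mem_Z0] at hs ⊢
  exact ⟨hs.1, hs.2.1, hs.2.2.1, hs.2.2.2.1.trans h, hs.2.2.2.2⟩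

theorem pow_add_le (q : ℕ) : ∃ D : ℝ, 0 < D ∧ ∀ a b : ℝ, 0 ≤ a → 0 ≤ b →
    (a + b) ^ q ≤ (3 / 2) * a ^ q + D * b ^ q := by
  have hc : ContinuousAt (fun η : ℝ => (1 + η) ^ q) 0 := by fun_prop
  have h1 : ∀ᶠ η : ℝ in 𝓝 0, (1 + η) ^ q < 3 / 2 := by
    refine hc.eventually_lt continuousAt_const ?_
    simp
    norm_num
  obtain ⟨e, he, he1⟩ := Metric.eventually_nhds_iff.1 h1
  obtain ⟨η, hη⟩ : ∃ η : ℝ, η = e / 2 := ⟨_, rfl⟩
  have hη0 : 0 < η := by rw [hη]; positivity
  have h2 : (1 + η) ^ q < 3 / 2 := by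
    apply he1
    rw [dist_zero_right, Real.norm_eq_abs, abs_of_pos hη0, hη]
    linarith
  refine ⟨(1 / η + 1) ^ q, by positivity, fun a b ha hb => ?_⟩
  rcases le_or_gt b (η * a) with h | h
  · have h3 : (a + b) ^ q ≤ ((1 + η) * a) ^ q := pow_le_pow_left₀ (by positivity) (by linarith) q
    rw [mul_pow] at h3
    have h4 : (1 + η) ^ q * a ^ q ≤ 3 / 2 * a ^ q :=
      mul_le_mul_of_nonneg_right h2.le (by positivity)
    have h5 : 0 ≤ (1 / η + 1) ^ q * b ^ q := by positivity
    linarith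
  · have h3 : a ≤ 1 / η * b := by
      rw [one_div, inv_mul_eq_div, le_div_iff₀ hη0]
      linarith
    have h4 : (a + b) ^ q ≤ ((1 / η + 1) * b) ^ q := pow_le_pow_left₀ (by positivity) (by linarith) q
    rw [mul_pow] at h4
    have h5 : 0 ≤ 3 / 2 * a ^ q := by positivity
    linarith

/-- moments of the counts, zeros in `(T, 2T]` -/
theorem mom_block (q : ℕ) (hq : 1 ≤ q) : ∃ C T0 : ℝ, 0 < C ∧ 10 ≤ T0 ∧ ∀ T : ℝ, T0 ≤ T →
    ∫ t, W (Zf riemannZeta T (2 * T)) (1 / Real.log T) t ^ q ≤ C * T := by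
  obtain ⟨C, T0, hC, hT0, h⟩ := Pool.Agent.Y750.OM.cntmom q hq
  refine ⟨C, T0, hC, hT0, fun T hT => ?_⟩
  have h1 := h T hT
  have hN : Nice fun t => W (Zf riemannZeta T (2 * T)) (1 / Real.log T) t ^ q :=
    (nice_W _ _).pow hq
  have h2 : ENNReal.ofReal (∫ t, W (Zf riemannZeta T (2 * T)) (1 / Real.log T) t ^ q) ≤
      ENNReal.ofReal (C * T) := by
    rw [ofReal_integral_eq_lintegral_ofReal hN.integrable
      (Eventually.of_forall fun t => pow_nonneg (W_nonneg _ _ _) _)]
    exact h1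
  have hT0' : 0 ≤ C * T := mul_nonneg hC.le (by linarith)
  exact (ENNReal.ofReal_le_ofReal_iff hT0').1 h2

/-- moments of the counts, zeros in `(0, T]` -/
theorem mom_all (q : ℕ) (hq : 1 ≤ q) : ∃ C T0 : ℝ, 0 < C ∧ 10 ≤ T0 ∧ ∀ T : ℝ, T0 ≤ T →
    ∫ t, W (Z0 T) (1 / Real.log T) t ^ q ≤ C * T := by
  classical
  obtain ⟨C, T1, hC, hT1, hblock⟩ := mom_block q hq
  obtain ⟨D, hD, hpow⟩ := pow_add_le q
  obtain ⟨B, hB⟩ : ∃ B : ℝ, B = ∫ t, W (Z0 (2 * T1)) (1 / Real.log T1) t ^ q := ⟨_, rfl⟩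
  have hB0 : 0 ≤ B := by
    rw [hB]
    exact integral_nonneg fun t => pow_nonneg (W_nonneg _ _ _) _
  obtain ⟨A, hA⟩ : ∃ A : ℝ, A = 2 * D * C + B + 1 := ⟨_, rfl⟩
  have hA0 : 0 < A := by rw [hA]; positivity
  have key : ∀ n : ℕ, ∀ T : ℝ, T1 ≤ T → T ≤ 2 ^ n * (2 * T1) →
      ∫ t, W (Z0 T) (1 / Real.log T) t ^ q ≤ A * T := by
    intro n
    induction n with
    | zero =>
      intro T h1 h2
      rw [pow_zero, one_mul] at h2
      have h3 : ∫ t, W (Z0 T) (1 / Real.log T) t ^ q ≤ B := by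
        rw [hB]
        refine integral_mono ((nice_W _ _).pow hq).integrable ((nice_W _ _).pow hq).integrable ?_
        intro t
        refine pow_le_pow_left₀ (W_nonneg _ _ _) (W_mono (Z0_mono h2) ?_ t) q
        exact one_div_le_one_div_of_le (Real.log_pos (by linarith))
          (Real.log_le_log (by linarith) h1)
      have h4 : B ≤ A * T := by
        have h5 : B ≤ A := by
          rw [hA]
          have : 0 ≤ 2 * D * C := by positivity
          linarith
        have h6 : A * 1 ≤ A * T := mul_le_mul_of_nonneg_left (by linarith) hA0.le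
        linarith
      exact h3.trans h4
    | succ n ih =>
      intro T h1 h2
      rcases le_or_gt T (2 * T1) with h3 | h3
      · -- the first case again
        have h4 : ∫ t, W (Z0 T) (1 / Real.log T) t ^ q ≤ B := by
          rw [hB]
          refine integral_mono ((nice_W _ _).pow hq).integrable ((nice_W _ _).pow hq).integrable ?_
          intro t
          refine pow_le_pow_left₀ (W_nonneg _ _ _) (W_mono (Z0_mono h3) ?_ t) q
          exact one_div_le_one_div_of_le (Real.log_pos (by linarith))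
            (Real.log_le_log (by linarith) h1)
        have h5 : B ≤ A := by
          rw [hA]
          have : 0 ≤ 2 * D * C := by positivity
          linarith
        have h6 : A * 1 ≤ A * T := mul_le_mul_of_nonneg_left (by linarith) hA0.le
        linarith
      · have h4 : T1 ≤ T / 2 := by linarith
        have h5 : T / 2 ≤ 2 ^ n * (2 * T1) := by
          rw [pow_succ] at h2
          linarith
        have ih1 := ih (T / 2) h4 h5
        have hb := hblock (T / 2) h4
        have e1 : 2 * (T / 2) = T := by ring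
        rw [e1] at hb
        have hlog : 1 / Real.log T ≤ 1 / Real.log (T / 2) :=
          one_div_le_one_div_of_le (Real.log_pos (by linarith))
            (Real.log_le_log (by linarith) (by linarith))
        have hpt : ∀ t, W (Z0 T) (1 / Real.log T) t ^ q ≤
            3 / 2 * W (Z0 (T / 2)) (1 / Real.log (T / 2)) t ^ q +
            D * W (Zf riemannZeta (T / 2) T) (1 / Real.log (T / 2)) t ^ q := by
          intro t
          refine le_trans ?_ (hpow _ _ (W_nonneg _ _ _) (W_nonneg _ _ _))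
          refine pow_le_pow_left₀ (W_nonneg _ _ _) ?_ q
          refine (W_mono (Finset.Subset.refl _) hlog t).trans (W_union ?_ _ t)
          intro s hs
          rw [mem_Z0] at hs
          rcases le_or_gt s.im (T / 2) with h6 | h6
          · exact Or.inl (mem_Z0.2 ⟨hs.1, hs.2.1, hs.2.2.1, h6, hs.2.2.2.2⟩)
          · exact Or.inr ((mem_Zf good_zeta (by linarith)).2
              ⟨hs.1, hs.2.1, h6, hs.2.2.2.1, hs.2.2.2.2⟩)
        have hN1 : Integrable fun t => W (Z0 (T / 2)) (1 / Real.log (T / 2)) t ^ q :=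
          ((nice_W _ _).pow hq).integrable
        have hN2 : Integrable fun t => W (Zf riemannZeta (T / 2) T) (1 / Real.log (T / 2)) t ^ q :=
          ((nice_W _ _).pow hq).integrable
        have h7 := integral_mono ((nice_W (Z0 T) (1 / Real.log T)).pow hq).integrable
          ((hN1.const_mul (3 / 2)).add (hN2.const_mul D)) hpt
        have h8 : ∫ t, (3 / 2 * W (Z0 (T / 2)) (1 / Real.log (T / 2)) t ^ q +
            D * W (Zf riemannZeta (T / 2) T) (1 / Real.log (T / 2)) t ^ q) =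
            3 / 2 * (∫ t, W (Z0 (T / 2)) (1 / Real.log (T / 2)) t ^ q) +
            D * ∫ t, W (Zf riemannZeta (T / 2) T) (1 / Real.log (T / 2)) t ^ q := by
          rw [integral_add (hN1.const_mul _) (hN2.const_mul _), integral_const_mul,
            integral_const_mul]
        have h9 : ∫ t, W (Z0 T) (1 / Real.log T) t ^ q ≤
            3 / 2 * (A * (T / 2)) + D * (C * (T / 2)) := by
          refine h7.trans ?_
          simp only [Pi.add_apply]
          rw [h8]
          have := mul_le_mul_of_nonneg_left hb hD.le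
          linarith
        refine h9.trans ?_
        have h10 : 2 * D * C ≤ A := by rw [hA]; linarith
        have hT0 : 0 < T := by linarith
        nlinarith
  refine ⟨A, T1, hA0, hT1, fun T hT => ?_⟩
  obtain ⟨n, hn⟩ := pow_unbounded_of_one_lt T (one_lt_two : (1 : ℝ) < 2)
  refine key n T hT (hn.le.trans ?_)
  have : (1 : ℝ) ≤ 2 * T1 := by linarith
  have h2 : (0 : ℝ) < 2 ^ n := by positivity
  nlinarith

theorem sum_biUnion_le' {ι β : Type} [DecidableEq β] (S : Finset ι) (t : ι → Finset β) (f : β → ℝ)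
    (hf : ∀ b, 0 ≤ f b) : ∑ b ∈ S.biUnion t, f b ≤ ∑ i ∈ S, ∑ b ∈ t i, f b := by
  classical
  induction S using Finset.induction_on with
  | empty => simp
  | insert i S hi ih =>
    rw [sum_insert hi, biUnion_insert]
    have h1 := sum_union_inter (s₁ := t i) (s₂ := S.biUnion t) (f := f)
    have h2 : 0 ≤ ∑ b ∈ t i ∩ S.biUnion t, f b := sum_nonneg fun b _ => hf b
    linarith

theorem sum_pow_le {n : ℕ} (q : ℕ) (a : Fin (n + 1) → ℝ) (ha : ∀ j, 0 ≤ a j) :
    (∑ j, a j) ^ q ≤ ((n + 1 : ℕ) : ℝ) ^ q * ∑ j, a j ^ q := by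
  classical
  obtain ⟨l₀, -, hl₀⟩ := exists_max_image (univ : Finset (Fin (n + 1))) a ⟨0, mem_univ _⟩
  calc (∑ j, a j) ^ q ≤ (((n + 1 : ℕ) : ℝ) * a l₀) ^ q := by
        refine pow_le_pow_left₀ (sum_nonneg fun j _ => ha j) ?_ q
        calc ∑ j, a j ≤ ∑ _j : Fin (n + 1), a l₀ := sum_le_sum fun j _ => hl₀ j (mem_univ _)
          _ = _ := by rw [sum_const, card_univ, Fintype.card_fin, nsmul_eq_mul]
    _ = ((n + 1 : ℕ) : ℝ) ^ q * a l₀ ^ q := mul_pow _ _ _
    _ ≤ _ := by
        refine mul_le_mul_of_nonneg_left ?_ (by positivity)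
        exact single_le_sum (f := fun j => a j ^ q) (fun j _ => pow_nonneg (ha j) _) (mem_univ l₀)

/-- moments of the counts in windows of any length of the order of the mean spacing -/
theorem mom_kap (q : ℕ) (hq : 1 ≤ q) (κ : ℝ) (hκ : 0 < κ) : ∃ C T0 : ℝ, 0 < C ∧ 10 ≤ T0 ∧
    ∀ T : ℝ, T0 ≤ T → ∫ t, V (Z0 T) (κ / Real.log T) t ^ q ≤ C * T := by
  classical
  obtain ⟨C, T0, hC, hT0, h⟩ := mom_all q hq
  obtain ⟨J, hJ⟩ : ∃ J : ℕ, J = ⌈κ⌉₊ := ⟨_, rfl⟩
  have hJκ : κ ≤ J := by rw [hJ]; exact Nat.le_ceil κ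
  refine ⟨((2 * J + 1 : ℕ) : ℝ) ^ q * ((2 * J + 1 : ℕ) : ℝ) * C, T0, by positivity, hT0,
    fun T hT => ?_⟩
  have hL : 0 < Real.log T := Real.log_pos (by linarith)
  obtain ⟨u, hu⟩ : ∃ u : Fin (2 * J + 1) → ℝ, u = fun j : Fin (2 * J + 1) =>
    2 * (((j : ℕ) : ℝ) - J) / Real.log T := ⟨_, rfl⟩
  have hcov : ∀ t, V (Z0 T) (κ / Real.log T) t ≤
      ∑ j : Fin (2 * J + 1), W (Z0 T) (1 / Real.log T) (t + u j) := by
    intro t
    unfold V W
    calc ∑ s ∈ (Z0 T).filter (fun s => |s.im - t| < κ / Real.log T), (mult riemannZeta s : ℝ) ≤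
        ∑ s ∈ (univ : Finset (Fin (2 * J + 1))).biUnion
          (fun j => (Z0 T).filter (fun s => |s.im - (t + u j)| ≤ 1 / Real.log T)),
          (mult riemannZeta s : ℝ) := by
          refine sum_le_sum_of_subset_of_nonneg ?_ fun s _ _ => Nat.cast_nonneg _
          intro s hs
          rw [mem_filter] at hs
          rw [mem_biUnion]
          obtain ⟨z, hz⟩ : ∃ z : ℝ, z = (s.im - t) * Real.log T / 2 := ⟨_, rfl⟩
          have hz1 : |z| < κ / 2 := by
            rw [hz, abs_div, abs_mul, abs_of_pos hL, abs_of_pos (two_pos : (0 : ℝ) < 2)]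
            have := hs.2
            rw [lt_div_iff₀ hL] at this
            linarith
          have hz2 := abs_lt.1 hz1
          have hr1 := abs_sub_round z
          have hr2 := abs_le.1 hr1
          have hrb1 : -(J : ℝ) ≤ round z := by
            have h1 : -(J : ℝ) - 1 < (round z : ℝ) := by linarith
            have h2 : -(J : ℤ) - 1 < round z := by exact_mod_cast h1
            have h3 : -(J : ℤ) ≤ round z := by omega
            exact_mod_cast h3
          have hrb2 : (round z : ℝ) ≤ J := by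
            have h1 : (round z : ℝ) < (J : ℝ) + 1 := by linarith
            have h2 : round z < (J : ℤ) + 1 := by exact_mod_cast h1
            have h3 : round z ≤ (J : ℤ) := by omega
            exact_mod_cast h3
          have hrb1' : -(J : ℤ) ≤ round z := by exact_mod_cast hrb1
          have hrb2' : round z ≤ (J : ℤ) := by exact_mod_cast hrb2
          refine ⟨⟨(round z + J).toNat, by omega⟩, mem_univ _, ?_⟩
          rw [mem_filter]
          refine ⟨hs.1, ?_⟩
          have h4 : (((round z + J).toNat : ℕ) : ℝ) = round z + J := by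
            have : (((round z + J).toNat : ℕ) : ℤ) = round z + J := Int.toNat_of_nonneg (by omega)
            exact_mod_cast this
          rw [hu]
          simp only
          rw [h4]
          have h5 : s.im - (t + 2 * (round z + J - J) / Real.log T) =
              2 * (z - round z) / Real.log T := by
            rw [hz]
            field_simp
            ring
          rw [h5, abs_div, abs_mul, abs_of_pos hL, abs_of_pos (two_pos : (0 : ℝ) < 2)]
          apply div_le_div_of_nonneg_right _ hL.le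
          linarith
      _ ≤ _ := sum_biUnion_le' _ _ _ fun s => Nat.cast_nonneg _
  have hpt : ∀ t, V (Z0 T) (κ / Real.log T) t ^ q ≤
      ((2 * J + 1 : ℕ) : ℝ) ^ q * ∑ j : Fin (2 * J + 1), W (Z0 T) (1 / Real.log T) (t + u j) ^ q := by
    intro t
    refine (pow_le_pow_left₀ (V_nonneg _ _ _) (hcov t) q).trans ?_
    exact sum_pow_le q _ fun j => W_nonneg _ _ _
  have hN : ∀ j, Integrable fun t => W (Z0 T) (1 / Real.log T) (t + u j) ^ q := fun j =>
    (((nice_W _ _).comp (u j)).pow hq).integrable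
  have h7 := integral_mono ((nice_V (Z0 T) (κ / Real.log T)).pow hq).integrable
    ((integrable_finsetSum univ fun j _ => hN j).const_mul (((2 * J + 1 : ℕ) : ℝ) ^ q)) hpt
  refine h7.trans ?_
  rw [integral_const_mul, integral_finsetSum _ fun j _ => hN j]
  have h8 : ∀ j, ∫ t, W (Z0 T) (1 / Real.log T) (t + u j) ^ q =
      ∫ t, W (Z0 T) (1 / Real.log T) t ^ q := fun j =>
    integral_add_right_eq_self (fun t => W (Z0 T) (1 / Real.log T) t ^ q) (u j)
  simp_rw [h8]
  rw [sum_const, card_univ, Fintype.card_fin, nsmul_eq_mul]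
  have h9 := h T hT
  have h10 : 0 ≤ ((2 * J + 1 : ℕ) : ℝ) ^ q * ((2 * J + 1 : ℕ) : ℝ) := by positivity
  have h11 := mul_le_mul_of_nonneg_left h9 h10
  linarith

/-- the number of zeros -/
theorem count_half (K : ℕ) : ∃ C T0 : ℝ, 0 < C ∧ 10 ≤ T0 ∧ ∀ T : ℝ, T0 ≤ T →
    (1 - 1 / 2 ^ K) * (T * Real.log T / (2 * Real.pi)) - C * T ≤
      (NN riemannZeta (T / 2 ^ K) T : ℝ) := by
  obtain ⟨C, T1, hC, hT1, h⟩ := H370.nn_asymp good_zeta
  induction K with
  | zero =>
    refine ⟨1, 10, one_pos, le_rfl, fun T hT => ?_⟩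
    have : (0 : ℝ) ≤ (NN riemannZeta (T / 2 ^ 0) T : ℝ) := Nat.cast_nonneg _
    simp only [pow_zero, div_one, sub_self, zero_mul, one_mul] at this ⊢
    linarith
  | succ K ih =>
    obtain ⟨C', T2, hC', hT2, h'⟩ := ih
    refine ⟨C + C' + 1, 2 ^ (K + 1) * (T1 + T2), by positivity, ?_, fun T hT => ?_⟩
    · have : (1 : ℝ) ≤ 2 ^ (K + 1) := one_le_pow₀ (by norm_num)
      nlinarith
    have hp : (1 : ℝ) ≤ 2 ^ K := one_le_pow₀ (by norm_num)
    have hp0 : (0 : ℝ) < 2 ^ K := by positivity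
    have hT4 : 2 * (T1 + T2) ≤ T := by
      refine le_trans ?_ hT
      rw [pow_succ]
      nlinarith
    have hT5 : T1 + T2 ≤ T / 2 ^ (K + 1) := by
      rw [le_div_iff₀ (by positivity)]
      linarith
    have hT0 : 0 < T := by linarith
    have e1 : T / 2 ^ (K + 1) = (T / 2) / 2 ^ K := by
      rw [pow_succ]
      field_simp
    have h1 := h' (T / 2) (by linarith)
    have h2 := h (T / 2) (by linarith) (T / 2) (2 * (T / 2)) le_rfl (by linarith) (by linarith) le_rfl
    have e2 : 2 * (T / 2) = T := by ring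
    rw [e2] at h2
    have h3 := (abs_le.1 h2).1
    have h4 : NN riemannZeta (T / 2 ^ (K + 1)) T =
        NN riemannZeta (T / 2 / 2 ^ K) (T / 2) + NN riemannZeta (T / 2) T := by
      rw [e1]
      refine H370.NN_add good_zeta ?_ ?_ ?_
      · rw [← e1]
        linarith
      · exact div_le_self (by linarith) hp
      · linarith
    rw [h4]
    push_cast
    have hlog : Real.log (T / 2) = Real.log T - Real.log 2 :=
      Real.log_div hT0.ne' two_ne_zero
    have hl2 : Real.log 2 ≤ 1 := by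
      have := Real.log_two_lt_d9
      linarith
    have hl20 : 0 ≤ Real.log 2 := Real.log_nonneg (by norm_num)
    rw [hlog] at h1 h3
    have hpi : 0 < 2 * Real.pi := by positivity
    have hpi1 : 1 ≤ 2 * Real.pi := by linarith [Real.pi_gt_three]
    have e3 : (1 - 1 / 2 ^ K) * (T / 2 * (Real.log T - Real.log 2) / (2 * Real.pi)) +
        T / 2 * (Real.log T - Real.log 2) / (2 * Real.pi) =
        (1 - 1 / 2 ^ (K + 1)) * (T * Real.log T / (2 * Real.pi)) -
        (1 - 1 / 2 ^ (K + 1)) * (T * Real.log 2 / (2 * Real.pi)) := by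
      rw [pow_succ]
      field_simp
      ring
    have h5 : (1 - 1 / 2 ^ (K + 1)) * (T * Real.log 2 / (2 * Real.pi)) ≤ 1 * T := by
      have h6 : (1 : ℝ) - 1 / 2 ^ (K + 1) ≤ 1 := by
        have : (0 : ℝ) ≤ 1 / 2 ^ (K + 1) := by positivity
        linarith
      have h7 : T * Real.log 2 / (2 * Real.pi) ≤ T := by
        rw [div_le_iff₀ hpi]
        nlinarith
      have h8 : 0 ≤ T * Real.log 2 / (2 * Real.pi) := by positivity
      nlinarith
    nlinarith

/-- the number of zeros with ordinate in `(0, T]` -/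
theorem count_all (ε : ℝ) (hε : 0 < ε) : ∃ T0 : ℝ, 10 ≤ T0 ∧ ∀ T : ℝ, T0 ≤ T →
    (1 - ε) * (T * Real.log T / (2 * Real.pi)) ≤ ∑ s ∈ Z0 T, (mult riemannZeta s : ℝ) := by
  classical
  obtain ⟨K, hK⟩ : ∃ K : ℕ, (1 : ℝ) / 2 ^ K < ε / 2 := by
    obtain ⟨K, hK⟩ := exists_pow_lt_of_lt_one (show 0 < ε / 2 by positivity)
      (show (1 / 2 : ℝ) < 1 by norm_num)
    refine ⟨K, ?_⟩
    rw [← one_div_pow]
    exact hK
  obtain ⟨C, T1, hC, hT1, h⟩ := count_half K
  have h1 : ∀ᶠ T : ℝ in atTop, 4 * Real.pi * C / ε ≤ Real.log T :=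
    Real.tendsto_log_atTop.eventually_ge_atTop _
  obtain ⟨T2, hT2⟩ := eventually_atTop.1 h1
  refine ⟨max T1 (max T2 (2 ^ K * 10)), hT1.trans (le_max_left _ _), fun T hT => ?_⟩
  have hTT1 : T1 ≤ T := (le_max_left _ _).trans hT
  have hTT2 : T2 ≤ T := ((le_max_left _ _).trans (le_max_right _ _)).trans hT
  have hTK : 2 ^ K * 10 ≤ T := ((le_max_right _ _).trans (le_max_right _ _)).trans hT
  have h2 := hT2 T hTT2
  have h3 := h T hTT1
  have hT10 : 10 ≤ T / 2 ^ K := by
    rw [le_div_iff₀ (by positivity)]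
    linarith
  have hT0 : 0 < T := by linarith
  have h4 : (NN riemannZeta (T / 2 ^ K) T : ℝ) ≤ ∑ s ∈ Z0 T, (mult riemannZeta s : ℝ) := by
    rw [H370.NN_eq_sum good_zeta _ _ (by linarith)]
    push_cast
    refine sum_le_sum_of_subset_of_nonneg ?_ fun s _ _ => Nat.cast_nonneg _
    intro s hs
    rw [Set.Finite.mem_toFinset] at hs
    obtain ⟨g1, g2, g3, g4, g5⟩ := hs
    exact mem_Z0.2 ⟨g1, g2, by linarith, g4, g5⟩
  refine le_trans ?_ (h3.trans h4)
  have hX : 0 ≤ T * Real.log T / (2 * Real.pi) := by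
    have : 0 ≤ Real.log T := Real.log_nonneg (by linarith)
    positivity
  have h5 : C * T ≤ ε / 2 * (T * Real.log T / (2 * Real.pi)) := by
    rw [div_le_iff₀ hε] at h2
    have hpi : 0 < Real.pi := Real.pi_pos
    have e : ε / 2 * (T * Real.log T / (2 * Real.pi)) = (Real.log T * ε) * T / (4 * Real.pi) := by
      field_simp
      ring
    rw [e, le_div_iff₀ (by positivity)]
    nlinarith
  nlinarith

end Pool.Agent.V11270.KC
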