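import Mathlib
import Pool.Agent.V11270.KC.Zeta

set_option autoImplicit false

/-!
# Joint counts of zeros in windows at many translates
-/

namespace Pool.Agent.V11270.KC

open Finset MeasureTheory Filter Topology
open H370 (Zf mult mem_Zf good_zeta zset NN)

/-- the averages of the joint moments -/
theorem main (k : ℕ) (hk : 1 ≤ k) (κ : ℝ) (hκ : 0 < κ) : ∃ C : ℝ, 0 < C ∧ ∀ ε : ℝ, 0 < ε → ε < 1 →
    ∃ θ T0 : ℝ, 0 < θ ∧ 10 ≤ T0 ∧ ∀ T : ℝ, T0 ≤ T → ∀ R : ℕ, C / ε ≤ R → ∀ α : Fin R → ℝ,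
      (∀ i j, |α i - α j| ≤ θ * T) →
      (1 - ε) * κ ^ k ≤ 1 / (R : ℝ) ^ k * ∑ e : Fin k ↪ Fin R,
        1 / T * ∫ x, ∏ l, V (Z0 T) (Real.pi * κ / Real.log T) (x + α (e l)) := by
  classical
  obtain ⟨B, T1, hB, hT1, hmom⟩ := mom_kap k hk (Real.pi * κ) (by positivity)
  have hk0 : (0 : ℝ) < k := by
    have : 0 < k := hk
    exact_mod_cast this
  refine ⟨2 * k ^ 3 * B / κ ^ k, by positivity, fun ε hε hε1 => ?_⟩
  obtain ⟨T2, hT2, hcount⟩ := count_all (ε / (4 * k)) (by positivity)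
  have h1 : ∀ᶠ T : ℝ in atTop, 2 * Real.pi * κ ≤ Real.log T :=
    Real.tendsto_log_atTop.eventually_ge_atTop _
  obtain ⟨T3, hT3⟩ := eventually_atTop.1 h1
  obtain ⟨θ, hθ⟩ : ∃ θ : ℝ, θ = ε / (8 * k) := ⟨_, rfl⟩
  have hθ0 : 0 < θ := by rw [hθ]; positivity
  refine ⟨θ, max T1 (max T2 (max T3 (1 / θ))), hθ0, hT1.trans (le_max_left _ _),
    fun T hT R hR α hα => ?_⟩
  have hTT1 : T1 ≤ T := (le_max_left _ _).trans hT
  have hTT2 : T2 ≤ T := ((le_max_left _ _).trans (le_max_right _ _)).trans hT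
  have hTT3 : T3 ≤ T :=
    (((le_max_left _ _).trans (le_max_right _ _)).trans (le_max_right _ _)).trans hT
  have hTT4 : 1 / θ ≤ T :=
    (((le_max_right _ _).trans (le_max_right _ _)).trans (le_max_right _ _)).trans hT
  have hTp : 0 < T := by linarith
  have hlog := hT3 T hTT3
  have hL0 : 0 < Real.log T := lt_of_lt_of_le (by positivity) hlog
  obtain ⟨ρ, hρ⟩ : ∃ ρ : ℝ, ρ = Real.pi * κ / Real.log T := ⟨_, rfl⟩
  have hρ0 : 0 < ρ := by rw [hρ]; positivity
  have hρ1 : 2 * ρ ≤ 1 := by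
    rw [hρ]
    have : 2 * (Real.pi * κ / Real.log T) = 2 * Real.pi * κ / Real.log T := by ring
    rw [this, div_le_one hL0]
    exact hlog
  have hRpos : 0 < R := by
    have h2 : (0 : ℝ) < 2 * k ^ 3 * B / κ ^ k / ε := by positivity
    have h3 : (0 : ℝ) < R := lt_of_lt_of_le h2 hR
    exact_mod_cast h3
  have hRp : (0 : ℝ) < R := by exact_mod_cast hRpos
  rw [← hρ]
  -- the smallest shift
  haveI : Nonempty (Fin R) := ⟨⟨0, hRpos⟩⟩
  obtain ⟨i₀, hi₀⟩ := Finite.exists_min α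
  have hαc : ∀ i, α i₀ ≤ α i ∧ α i ≤ α i₀ + θ * T := by
    intro i
    refine ⟨hi₀ i, ?_⟩
    have := (abs_le.1 (hα i i₀)).2
    linarith
  have hs : ∀ x, x ∉ Set.Icc (-ρ) (-ρ + (T + 2 * ρ)) → V (Z0 T) ρ x = 0 := by
    intro x hx
    unfold V
    refine sum_eq_zero fun s hs => ?_
    rw [mem_filter, mem_Z0] at hs
    exfalso
    apply hx
    obtain ⟨⟨g1, g2, g3, g4, g5⟩, g6⟩ := hs
    rw [abs_lt] at g6
    constructor <;> linarith
  have hB' : ∫ x, V (Z0 T) ρ x ^ k ≤ B * T := by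
    rw [hρ]
    exact hmom T hTT1
  have hav := average hk (nice_V (Z0 T) ρ) (V_nonneg _ _) (show 0 < T + 2 * ρ by positivity) hs α
    (show 0 ≤ θ * T by positivity) hαc hB'
  -- the main term
  have hI : (1 - ε / (4 * k)) * κ * T ≤ ∫ x, V (Z0 T) ρ x := by
    rw [int_V _ hρ0.le]
    have h2 := hcount T hTT2
    have h3 := mul_le_mul_of_nonneg_left h2 (show 0 ≤ 2 * ρ by positivity)
    refine le_trans (le_of_eq ?_) h3
    rw [hρ]
    field_simp
  have hLL : T + 2 * ρ + θ * T ≤ (1 + 2 * θ) * T := by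
    have : 1 ≤ θ * T := by
      rw [div_le_iff₀ hθ0] at hTT4
      linarith
    linarith
  have hεk : ε / (4 * k) ≤ 1 / 4 := by
    rw [div_le_div_iff₀ (by positivity) (by norm_num)]
    have : (1 : ℝ) ≤ k := by exact_mod_cast hk
    nlinarith
  have hmain : (1 - ε / 2) * κ ^ k * T ≤
      (∫ x, V (Z0 T) ρ x) ^ k / (T + 2 * ρ + θ * T) ^ (k - 1) := by
    rw [le_div_iff₀ (by positivity)]
    have h2 : ((1 - ε / (4 * k)) * κ * T) ^ k ≤ (∫ x, V (Z0 T) ρ x) ^ k := by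
      refine pow_le_pow_left₀ ?_ hI k
      have : 0 ≤ 1 - ε / (4 * k) := by linarith
      positivity
    refine le_trans ?_ h2
    have h3 : (T + 2 * ρ + θ * T) ^ (k - 1) ≤ ((1 + 2 * θ) * T) ^ (k - 1) :=
      pow_le_pow_left₀ (by positivity) hLL _
    have hε2 : 0 ≤ (1 - ε / 2) * κ ^ k * T := by
      have : 0 ≤ 1 - ε / 2 := by linarith
      positivity
    refine (mul_le_mul_of_nonneg_left h3 hε2).trans ?_
    -- `(1 - ε/2) (1 + 2θ)^(k-1) ≤ (1 - ε/(4k))^k`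
    have h4 : (1 - ε / 2) * (1 + 2 * θ) ^ (k - 1) ≤ (1 - ε / (4 * k)) ^ k := by
      have hq : 0 < 1 + 2 * θ := by positivity
      have h5 : (1 - ε / 2) * (1 + 2 * θ) ^ k ≤ (1 - ε / (4 * k)) ^ k := by
        have h6 : 1 - ε / (4 * k) = (1 - 2 * (ε / (4 * k)) ) + ε / (4 * k) := by ring
        have h7 : (1 + (-(2 * (ε / (4 * k))))) * (1 + 2 * θ) ≤ 1 - ε / (4 * k) := by
          rw [hθ]
          have : 0 ≤ ε / (4 * k) := by positivity
          have e1 : 2 * (ε / (8 * k)) = ε / (4 * k) := by ring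
          rw [e1]
          nlinarith
        have h8 : 1 + (k : ℝ) * (-(2 * (ε / (4 * k)))) ≤ (1 + (-(2 * (ε / (4 * k))))) ^ k :=
          one_add_mul_le_pow (by linarith) k
        have h9 : 1 + (k : ℝ) * (-(2 * (ε / (4 * k)))) = 1 - ε / 2 := by
          field_simp
          ring
        rw [h9] at h8
        calc (1 - ε / 2) * (1 + 2 * θ) ^ k ≤ (1 + (-(2 * (ε / (4 * k))))) ^ k * (1 + 2 * θ) ^ k :=
              mul_le_mul_of_nonneg_right h8 (by positivity)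
          _ = ((1 + (-(2 * (ε / (4 * k))))) * (1 + 2 * θ)) ^ k := (mul_pow _ _ _).symm
          _ ≤ _ := by
              refine pow_le_pow_left₀ ?_ h7 k
              refine mul_nonneg ?_ hq.le
              linarith
      refine le_trans ?_ h5
      refine mul_le_mul_of_nonneg_left ?_ (by linarith)
      exact pow_le_pow_right₀ (by linarith) (by omega)
    have hκT : 0 ≤ κ ^ k * T ^ k := by positivity
    have h10 := mul_le_mul_of_nonneg_right h4 hκT
    refine le_trans (le_of_eq ?_) (h10.trans (le_of_eq ?_))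
    · obtain ⟨j, rfl⟩ : ∃ j, k = j + 1 := ⟨k - 1, by omega⟩
      simp only [Nat.add_sub_cancel]
      rw [mul_pow (1 + 2 * θ) T j, pow_succ T j]
      ring
    · rw [mul_pow, mul_pow]
      ring
  -- the error term
  have herr : (k : ℝ) ^ 3 * (R : ℝ) ^ (k - 1) * (B * T) ≤ ε / 2 * κ ^ k * T * (R : ℝ) ^ k := by
    have h2 : 2 * k ^ 3 * B / κ ^ k ≤ R * ε := by
      rw [div_le_iff₀ hε] at hR
      exact hR
    rw [div_le_iff₀ (by positivity)] at h2
    obtain ⟨j, rfl⟩ : ∃ j, k = j + 1 := ⟨k - 1, by omega⟩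
    simp only [Nat.add_sub_cancel]
    rw [pow_succ (R : ℝ) j]
    have h3 : 0 ≤ (R : ℝ) ^ j * T / 2 := by positivity
    have h4 := mul_le_mul_of_nonneg_right h2 h3
    nlinarith
  have hfin : (1 - ε) * κ ^ k * (T * (R : ℝ) ^ k) ≤
      ∑ e : Fin k ↪ Fin R, ∫ x, ∏ l, V (Z0 T) ρ (x + α (e l)) := by
    refine le_trans ?_ hav
    have h2 := mul_le_mul_of_nonneg_left hmain (show 0 ≤ (R : ℝ) ^ k by positivity)
    have e1 : (1 - ε) * κ ^ k * (T * (R : ℝ) ^ k) = (R : ℝ) ^ k * ((1 - ε / 2) * κ ^ k * T) -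
        ε / 2 * κ ^ k * T * (R : ℝ) ^ k := by ring
    rw [e1]
    linarith
  rw [← mul_sum, ← mul_assoc, one_div, one_div, ← mul_inv, inv_mul_eq_div,
    le_div_iff₀ (by positivity)]
  refine le_trans (le_of_eq ?_) hfin
  ring

/-- pairs from the joint counts -/
theorem pair_bound (S : Finset ℂ) {ρ : ℝ} (hρ : 0 < ρ) (a b : ℝ) :
    ∫ x, V S ρ (x + a) * V S ρ (x + b) ≤ 2 * ρ *
      ∑ p ∈ (S ×ˢ S).filter (fun p => |p.1.im - p.2.im - (a - b)| ≤ 2 * ρ),
        (mult riemannZeta p.1 : ℝ) * (mult riemannZeta p.2 : ℝ) := by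
  classical
  obtain ⟨P, hP⟩ : ∃ P : Finset (ℂ × ℂ),
    P = (S ×ˢ S).filter (fun p => |p.1.im - p.2.im - (a - b)| ≤ 2 * ρ) := ⟨_, rfl⟩
  rw [← hP]
  obtain ⟨g, hg⟩ : ∃ g : ℂ × ℂ → ℝ → ℝ, g = fun p =>
    (Set.Ioo (p.1.im - ρ) (p.1.im + ρ)).indicator
      (fun _ => (mult riemannZeta p.1 : ℝ) * (mult riemannZeta p.2 : ℝ)) := ⟨_, rfl⟩
  have hgN : ∀ p, Nice (g p) := by
    intro p
    rw [hg]
    exact nice_ind measurableSet_Ioo Set.Ioo_subset_Icc_self _
  have hpt : ∀ x, V S ρ (x + a) * V S ρ (x + b) ≤ ∑ p ∈ P, g p (x + a) := by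
    intro x
    unfold V
    rw [sum_mul_sum, ← sum_product']
    have h1 : ((S.filter (fun s => |s.im - (x + a)| < ρ)) ×ˢ
        (S.filter (fun s => |s.im - (x + b)| < ρ))) ⊆ P.filter (fun p => |p.1.im - (x + a)| < ρ) := by
      intro p hp
      rw [mem_product, mem_filter, mem_filter] at hp
      rw [mem_filter, hP, mem_filter, mem_product]
      refine ⟨⟨⟨hp.1.1, hp.2.1⟩, ?_⟩, hp.1.2⟩
      have h2 := abs_lt.1 hp.1.2
      have h3 := abs_lt.1 hp.2.2
      rw [abs_le]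
      constructor <;> linarith
    refine (sum_le_sum_of_subset_of_nonneg h1 fun p _ _ => by positivity).trans (le_of_eq ?_)
    rw [sum_filter]
    refine sum_congr rfl fun p _ => ?_
    rw [hg]
    simp only
    rw [Set.indicator_apply]
    refine if_congr ?_ rfl rfl
    rw [abs_lt, Set.mem_Ioo]
    constructor
    · rintro ⟨h2, h3⟩
      constructor <;> linarith
    · rintro ⟨h2, h3⟩
      constructor <;> linarith
  have hN1 : Nice fun x => V S ρ (x + a) * V S ρ (x + b) :=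
    ((nice_V S ρ).comp a).mul ((nice_V S ρ).comp b)
  have hN2 : Nice fun x => ∑ p ∈ P, g p (x + a) :=
    Nice.sum P (fun p x => g p (x + a)) fun p _ => (hgN p).comp a
  refine (integral_mono hN1.integrable hN2.integrable hpt).trans (le_of_eq ?_)
  rw [integral_finsetSum _ fun p _ => ((hgN p).comp a).integrable, mul_sum]
  refine sum_congr rfl fun p _ => ?_
  rw [integral_add_right_eq_self (g p), hg]
  simp only
  rw [integral_indicator_const _ measurableSet_Ioo, measureReal_def, Real.volume_Ioo,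
    ENNReal.toReal_ofReal (by linarith), smul_eq_mul]
  ring

end Pool.Agent.V11270.KC
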